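import Mathlib
import Pool.Agent.H204R3.GP.MTDefs

/-!
# Rational structures on invariant tensors
-/

set_option autoImplicit false
set_option linter.unusedSectionVars false

namespace Pool.Agent.V7H82.SA

open TensorProduct Pool.Agent.H204R3.GP

variable {H T : Type} [AddCommGroup H] [Module ℚ H] [AddCommGroup T] [Module ℂ T]

lemma hodge_zero (per : H →+ T) {κ : Type*} :
    IsHodgeTensor per (0 : MultilinearMap ℚ (fun _ : κ => H) ℚ) :=
  ⟨0, fun v => by simp, fun z _ u => rfl⟩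

lemma hodge_add {per : H →+ T} {κ : Type*} {ψ ψ' : MultilinearMap ℚ (fun _ : κ => H) ℚ}
    (h : IsHodgeTensor per ψ) (h' : IsHodgeTensor per ψ') : IsHodgeTensor per (ψ + ψ') := by
  obtain ⟨Ψ, h1, h2⟩ := h
  obtain ⟨Ψ', h1', h2'⟩ := h'
  refine ⟨Ψ + Ψ', fun v => ?_, fun z hz u => ?_⟩
  · rw [MultilinearMap.add_apply, MultilinearMap.add_apply, h1, h1']
    push_cast
    rfl
  · rw [MultilinearMap.add_apply, MultilinearMap.add_apply, h2 z hz, h2' z hz]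

lemma hodge_smul {per : H →+ T} {κ : Type*} {ψ : MultilinearMap ℚ (fun _ : κ => H) ℚ}
    (a : ℚ) (h : IsHodgeTensor per ψ) : IsHodgeTensor per (a • ψ) := by
  obtain ⟨Ψ, h1, h2⟩ := h
  refine ⟨(a : ℝ) • Ψ, fun v => ?_, fun z hz u => ?_⟩
  · rw [MultilinearMap.smul_apply, MultilinearMap.smul_apply, h1, smul_eq_mul, smul_eq_mul]
    push_cast
    rfl
  · rw [MultilinearMap.smul_apply, MultilinearMap.smul_apply, h2 z hz]

lemma hodge_sum {per : H →+ T} {κ : Type*} {J : Type*} (F : Finset J)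
    (ψ : J → MultilinearMap ℚ (fun _ : κ => H) ℚ) (h : ∀ j ∈ F, IsHodgeTensor per (ψ j)) :
    IsHodgeTensor per (∑ j ∈ F, ψ j) := by
  classical
  induction F using Finset.induction_on with
  | empty => rw [Finset.sum_empty]; exact hodge_zero per
  | insert a F ha ih =>
    rw [Finset.sum_insert ha]
    exact hodge_add (h a (Finset.mem_insert_self a F))
      (ih fun j hj => h j (Finset.mem_insert_of_mem hj))

/-- Invariant combinations of Hodge tensors are combinations of invariant Hodge tensors. -/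
theorem inv_span {k : Type} [Field k] [CharZero k] {Γ : Type} [Group Γ] (per : H →+ T)
    (ρ : Representation k Γ (k ⊗[ℚ] H)) (χ : Γ →* k) {n : ℕ}
    (hD : ∀ ψ : MultilinearMap ℚ (fun _ : Fin n × Fin 2 => H) ℚ, IsHodgeTensor per ψ →
      ∀ s : Γ, ∃ ψ' : MultilinearMap ℚ (fun _ : Fin n × Fin 2 => H) ℚ,
        ∀ φ : MultilinearMap k (fun _ : Fin n × Fin 2 => k ⊗[ℚ] H) k,
          (∀ w : Fin n × Fin 2 → H, φ (fun l => (1 : k) ⊗ₜ[ℚ] w l) = algebraMap ℚ k (ψ w)) →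
          ∀ w : Fin n × Fin 2 → H, φ (fun l => ρ s ((1 : k) ⊗ₜ[ℚ] w l)) =
            χ s ^ n * algebraMap ℚ k (ψ' w))
    (φ : MultilinearMap k (fun _ : Fin n × Fin 2 => k ⊗[ℚ] H) k)
    (hφ : ∀ (s : Γ) (v : Fin n × Fin 2 → k ⊗[ℚ] H), φ (fun l => ρ s (v l)) = χ s ^ n * φ v)
    (h : φ ∈ Submodule.span k {φ' : MultilinearMap k (fun _ : Fin n × Fin 2 => k ⊗[ℚ] H) k |
      ∃ ψ : MultilinearMap ℚ (fun _ : Fin n × Fin 2 => H) ℚ, IsHodgeTensor per ψ ∧
        ∀ v : Fin n × Fin 2 → H, φ' (fun l => (1 : k) ⊗ₜ[ℚ] v l) = algebraMap ℚ k (ψ v)}) :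
    φ ∈ Submodule.span k {φ' : MultilinearMap k (fun _ : Fin n × Fin 2 => k ⊗[ℚ] H) k |
      ∃ ψ : MultilinearMap ℚ (fun _ : Fin n × Fin 2 => H) ℚ, IsHodgeTensor per ψ ∧
        (∀ s : Γ, ∀ w : Fin n × Fin 2 → H, φ' (fun l => ρ s ((1 : k) ⊗ₜ[ℚ] w l)) =
          χ s ^ n * algebraMap ℚ k (ψ w)) ∧
        ∀ v : Fin n × Fin 2 → H, φ' (fun l => (1 : k) ⊗ₜ[ℚ] v l) = algebraMap ℚ k (ψ v)} := by
  classical
  obtain ⟨J, F, a, x, hx, hsum⟩ : ∃ (J : Type) (F : Finset J) (a : J → k)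
      (x : J → MultilinearMap k (fun _ : Fin n × Fin 2 => k ⊗[ℚ] H) k),
      (∀ j, ∃ ψ : MultilinearMap ℚ (fun _ : Fin n × Fin 2 => H) ℚ, IsHodgeTensor per ψ ∧
        ∀ v : Fin n × Fin 2 → H, x j (fun l => (1 : k) ⊗ₜ[ℚ] v l) = algebraMap ℚ k (ψ v)) ∧
      ∑ j ∈ F, a j • x j = φ := by
    obtain ⟨c, hc⟩ := (Finsupp.mem_span_iff_linearCombination k _ φ).1 h
    exact ⟨_, c.support, c, fun j => j.1, fun j => j.2, hc⟩
  choose ψ hψ1 hψ2 using hx
  let b := Module.Basis.ofVectorSpace ℚ k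
  let I : Finset _ := F.biUnion fun j => (b.repr (a j)).support
  have hab : ∀ j ∈ F, ∑ i ∈ I, (b.repr (a j) i) • b i = a j := by
    intro j hj
    conv_rhs => rw [← b.linearCombination_repr (a j), Finsupp.linearCombination_apply, Finsupp.sum]
    symm
    refine Finset.sum_subset (fun i hi => Finset.mem_biUnion.2 ⟨j, hj, hi⟩) fun i _ hi => ?_
    rw [Finsupp.notMem_support_iff.1 hi, zero_smul]
  let Φ := fun i => ∑ j ∈ F, (algebraMap ℚ k (b.repr (a j) i)) • x j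
  let Ψ := fun i => ∑ j ∈ F, (b.repr (a j) i) • ψ j
  have hΦΨ : ∀ i, ∀ v : Fin n × Fin 2 → H, Φ i (fun l => (1 : k) ⊗ₜ[ℚ] v l) =
      algebraMap ℚ k (Ψ i v) := by
    intro i v
    simp only [Φ, Ψ, MultilinearMap.sum_apply, MultilinearMap.smul_apply, smul_eq_mul, map_sum,
      map_mul, hψ2]
  have hΨ : ∀ i, IsHodgeTensor per (Ψ i) := fun i =>
    hodge_sum F _ fun j _ => hodge_smul _ (hψ1 j)
  have hφΦ : ∑ i ∈ I, b i • Φ i = φ := by
    rw [← hsum]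
    simp only [Φ, Finset.smul_sum]
    rw [Finset.sum_comm]
    refine Finset.sum_congr rfl fun j hj => ?_
    conv_rhs => rw [← hab j hj, Finset.sum_smul]
    refine Finset.sum_congr rfl fun i _ => ?_
    rw [smul_smul, Algebra.smul_def, mul_comm]
  have hχ : ∀ s, χ s ≠ 0 := by
    intro s h0
    have h1 : χ s * χ s⁻¹ = 1 := by rw [← map_mul, mul_inv_cancel, map_one]
    rw [h0, zero_mul] at h1
    exact zero_ne_one h1
  have hinv : ∀ i ∈ I, ∀ s : Γ, ∀ w : Fin n × Fin 2 → H,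
      Φ i (fun l => ρ s ((1 : k) ⊗ₜ[ℚ] w l)) = χ s ^ n * algebraMap ℚ k (Ψ i w) := by
    intro i₀ hi₀ s w
    choose Ψ' hΨ' using fun i => hD (Ψ i) (hΨ i) s
    have h1 : ∀ i, Φ i (fun l => ρ s ((1 : k) ⊗ₜ[ℚ] w l)) =
        χ s ^ n * algebraMap ℚ k (Ψ' i w) := fun i => hΨ' i (Φ i) (hΦΨ i) w
    have h2 := hφ s (fun l => (1 : k) ⊗ₜ[ℚ] w l)
    rw [← hφΦ, MultilinearMap.sum_apply, MultilinearMap.sum_apply] at h2
    simp only [MultilinearMap.smul_apply, smul_eq_mul, h1, hΦΨ] at h2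
    have h3 : ∑ i ∈ I, (Ψ' i w - Ψ i w) • b i = 0 := by
      have h4 : χ s ^ n * ∑ i ∈ I, (Ψ' i w - Ψ i w) • b i = 0 := by
        rw [Finset.mul_sum] at h2 ⊢
        rw [← sub_eq_zero, ← Finset.sum_sub_distrib] at h2
        rw [← h2]
        refine Finset.sum_congr rfl fun i _ => ?_
        rw [Algebra.smul_def, map_sub]
        ring
      exact (mul_eq_zero.1 h4).resolve_left (pow_ne_zero _ (hχ s))
    have h4 := linearIndependent_iff'.1 b.linearIndependent I _ h3 i₀ hi₀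
    rw [h1, sub_eq_zero.1 h4]
  rw [← hφΦ]
  refine Submodule.sum_mem _ fun i hi => Submodule.smul_mem _ _ (Submodule.subset_span ?_)
  exact ⟨Ψ i, hΨ i, hinv i hi, hΦΨ i⟩

end Pool.Agent.V7H82.SA
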