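import Mathlib

/-!
# Equations of the algebraic Sato-Tate group
-/

set_option autoImplicit false
set_option linter.unusedSectionVars false

namespace Pool.Agent.V7H82.SA

open MvPolynomial Matrix

noncomputable section

variable {n r : ℕ} {κ : Type} [Fintype κ] [DecidableEq κ] {Γ : Type} [Group Γ]

/-- The value of a rational polynomial at a matrix. -/
def vl {ι R : Type} [CommRing R] [Algebra ℚ R] (g : Matrix ι ι R) :
    MvPolynomial (ι × ι) ℚ →ₐ[ℚ] R :=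
  aeval (fun q : ι × ι => g q.1 q.2)

/-- The generic matrix. -/
def gX (ι : Type) : Matrix ι ι (MvPolynomial (ι × ι) ℚ) := Matrix.of fun a b => X (a, b)

lemma vl_gX {ι R : Type} [CommRing R] [Algebra ℚ R] (g : Matrix ι ι R) (a b : ι) :
    vl g (gX ι a b) = g a b := by
  unfold vl gX
  rw [Matrix.of_apply, aeval_X]

/-- The diagonal block. -/
def bk {R : Type} (c : Fin n → Fin r) (i : Fin r) (A : Matrix (Fin n) (Fin n) R) :
    Matrix {a // c a = i} {a // c a = i} R :=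
  A.submatrix Subtype.val Subtype.val

/-- A coset. -/
def Pc (c : Fin n → Fin r) (Q : Matrix (Fin n) (Fin n) ℚ) (A : Matrix κ κ ℚ) (e : Fin r → ℤˣ)
    {R : Type} [CommRing R] [Algebra ℚ R] (g : Matrix (κ ⊕ Fin n) (κ ⊕ Fin n) R) : Prop :=
  ∃ t : Matrix (Fin n) (Fin n) R, g = fromBlocks (A.map (algebraMap ℚ R)) 0 0 t ∧
    tᵀ * Q.map (algebraMap ℚ R) * t = Q.map (algebraMap ℚ R) ∧ (∀ a b, c a ≠ c b → t a b = 0) ∧
    ∀ i, (bk c i t).det = ((e i : ℤ) : R)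

/-- The equations of the orthogonal group. -/
def fm (κ : Type) (Q : Matrix (Fin n) (Fin n) ℚ) :
    Matrix (Fin n) (Fin n) (MvPolynomial ((κ ⊕ Fin n) × (κ ⊕ Fin n)) ℚ) :=
  ((gX (κ ⊕ Fin n)).toBlocks₂₂)ᵀ * Q.map C * (gX (κ ⊕ Fin n)).toBlocks₂₂ - Q.map C

/-- The equations of a coset. -/
def Eq1 (c : Fin n → Fin r) (Q : Matrix (Fin n) (Fin n) ℚ) (A : Matrix κ κ ℚ) (e : Fin r → ℤˣ) :
    Set (MvPolynomial ((κ ⊕ Fin n) × (κ ⊕ Fin n)) ℚ) :=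
  {f | (∃ a b, f = gX (κ ⊕ Fin n) (Sum.inl a) (Sum.inl b) - C (A a b)) ∨
    (∃ a b, f = gX (κ ⊕ Fin n) (Sum.inl a) (Sum.inr b)) ∨
    (∃ a b, f = gX (κ ⊕ Fin n) (Sum.inr a) (Sum.inl b)) ∨
    (∃ a b, f = fm κ Q a b) ∨
    (∃ a b, c a ≠ c b ∧ f = gX (κ ⊕ Fin n) (Sum.inr a) (Sum.inr b)) ∨
    ∃ i, f = (bk c i (gX (κ ⊕ Fin n)).toBlocks₂₂).det - C ((e i : ℤ) : ℚ)}

lemma vl_form {R : Type} [CommRing R] [Algebra ℚ R] (Q : Matrix (Fin n) (Fin n) ℚ)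
    (g : Matrix (κ ⊕ Fin n) (κ ⊕ Fin n) R) (a b : Fin n) :
    vl g (fm κ Q a b) = (g.toBlocks₂₂ᵀ * Q.map (algebraMap ℚ R) * g.toBlocks₂₂ -
        Q.map (algebraMap ℚ R)) a b := by
  have h1 : ((gX (κ ⊕ Fin n)).toBlocks₂₂).map (vl g) = g.toBlocks₂₂ := by
    ext x y
    exact vl_gX g _ _
  have h1' : ((gX (κ ⊕ Fin n)).toBlocks₂₂)ᵀ.map (vl g) = g.toBlocks₂₂ᵀ := by
    ext x y
    exact vl_gX g _ _
  have h2 : (Q.map (C : ℚ →+* MvPolynomial ((κ ⊕ Fin n) × (κ ⊕ Fin n)) ℚ)).map (vl g) =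
      Q.map (algebraMap ℚ R) := by
    ext x y
    simp only [Matrix.map_apply]
    exact (vl g).commutes _
  have h3 : (fm κ Q).map (vl g) = g.toBlocks₂₂ᵀ * Q.map (algebraMap ℚ R) * g.toBlocks₂₂ -
        Q.map (algebraMap ℚ R) := by
    unfold fm
    rw [Matrix.map_sub _ (map_sub (vl g)), Matrix.map_mul, Matrix.map_mul, h1, h1', h2]
  rw [← h3]
  rfl

lemma vl_det {R : Type} [CommRing R] [Algebra ℚ R] (c : Fin n → Fin r)
    (g : Matrix (κ ⊕ Fin n) (κ ⊕ Fin n) R) (i : Fin r) (e : ℤˣ) :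
    vl g ((bk c i (gX (κ ⊕ Fin n)).toBlocks₂₂).det - C ((e : ℤ) : ℚ)) =
      (bk c i g.toBlocks₂₂).det - ((e : ℤ) : R) := by
  rw [map_sub, AlgHom.map_det]
  congr 1
  · congr 1
    ext x y
    exact vl_gX g _ _
  · have h1 : vl g (C ((e : ℤ) : ℚ)) = algebraMap ℚ R ((e : ℤ) : ℚ) := (vl g).commutes _
    rw [h1, map_intCast]

theorem pc_iff {R : Type} [CommRing R] [Algebra ℚ R] (c : Fin n → Fin r)
    (Q : Matrix (Fin n) (Fin n) ℚ) (A : Matrix κ κ ℚ) (e : Fin r → ℤˣ)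
    (g : Matrix (κ ⊕ Fin n) (κ ⊕ Fin n) R) :
    Pc c Q A e g ↔ ∀ f ∈ Eq1 c Q A e, vl g f = 0 := by
  constructor
  · rintro ⟨t, rfl, h1, h2, h3⟩ f (⟨a, b, rfl⟩ | ⟨a, b, rfl⟩ | ⟨a, b, rfl⟩ | ⟨a, b, rfl⟩ |
      ⟨a, b, hab, rfl⟩ | ⟨i, rfl⟩)
    · rw [map_sub, vl_gX, fromBlocks_apply₁₁, Matrix.map_apply]
      exact sub_eq_zero.2 ((vl _).commutes _).symm
    · rw [vl_gX, fromBlocks_apply₁₂, Matrix.zero_apply]
    · rw [vl_gX, fromBlocks_apply₂₁, Matrix.zero_apply]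
    · rw [vl_form, toBlocks_fromBlocks₂₂, h1, sub_self, Matrix.zero_apply]
    · rw [vl_gX, fromBlocks_apply₂₂]
      exact h2 a b hab
    · rw [vl_det, toBlocks_fromBlocks₂₂, h3, sub_self]
  · intro h
    refine ⟨g.toBlocks₂₂, ?_, ?_, ?_, ?_⟩
    · ext (a | a) (b | b)
      · have h1 := h _ (Or.inl ⟨a, b, rfl⟩)
        rw [map_sub, vl_gX] at h1
        rw [fromBlocks_apply₁₁, Matrix.map_apply, sub_eq_zero.1 h1]
        exact (vl g).commutes _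
      · have h1 := h _ (Or.inr (Or.inl ⟨a, b, rfl⟩))
        rwa [vl_gX] at h1
      · have h1 := h _ (Or.inr (Or.inr (Or.inl ⟨a, b, rfl⟩)))
        rwa [vl_gX] at h1
      · rfl
    · rw [← sub_eq_zero]
      ext a b
      have h1 := h _ (Or.inr (Or.inr (Or.inr (Or.inl ⟨a, b, rfl⟩))))
      rwa [vl_form] at h1
    · intro a b hab
      have h1 := h _ (Or.inr (Or.inr (Or.inr (Or.inr (Or.inl ⟨a, b, hab, rfl⟩)))))
      rwa [vl_gX] at h1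
    · intro i
      have h1 := h _ (Or.inr (Or.inr (Or.inr (Or.inr (Or.inr ⟨i, rfl⟩)))))
      rw [vl_det] at h1
      exact sub_eq_zero.1 h1

/-- Finite unions of cosets are defined by rational polynomials. -/
theorem exists_eqn (c : Fin n → Fin r) (Q : Matrix (Fin n) (Fin n) ℚ) (α : Γ →* Matrix κ κ ℚ)
    (hα : (Set.range α).Finite) (ε : Fin r → Γ →* ℤˣ) :
    ∃ P : Set (MvPolynomial ((κ ⊕ Fin n) × (κ ⊕ Fin n)) ℚ), ∀ (R : Type) [Field R] [Algebra ℚ R]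
      (g : Matrix (κ ⊕ Fin n) (κ ⊕ Fin n) R),
      (∃ s : Γ, Pc c Q (α s) (fun i => ε i s) g) ↔ ∀ f ∈ P, vl g f = 0 := by
  classical
  obtain ⟨J, hJ⟩ : ∃ J : Finset Γ, ∀ s : Γ, ∃ u ∈ J, α u = α s ∧ ∀ i, ε i u = ε i s := by
    let φ : Γ → Matrix κ κ ℚ × (Fin r → ℤˣ) := fun s => (α s, fun i => ε i s)
    have hfin : (Set.range φ).Finite := by
      refine (hα.prod (Set.finite_univ : (Set.univ : Set (Fin r → ℤˣ)).Finite)).subset ?_
      rintro _ ⟨s, rfl⟩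
      exact ⟨⟨s, rfl⟩, trivial⟩
    have hch : ∀ y : hfin.toFinset, ∃ s, φ s = y := fun y => hfin.mem_toFinset.1 y.2
    choose u hu using hch
    refine ⟨Finset.univ.image u, fun s => ?_⟩
    have h1 := hu ⟨φ s, hfin.mem_toFinset.2 ⟨s, rfl⟩⟩
    refine ⟨_, Finset.mem_image.2 ⟨⟨φ s, hfin.mem_toFinset.2 ⟨s, rfl⟩⟩, Finset.mem_univ _, rfl⟩,
      congrArg Prod.fst h1, fun i => congrFun (congrArg Prod.snd h1) i⟩
  refine ⟨{f | ∃ F : Γ → MvPolynomial ((κ ⊕ Fin n) × (κ ⊕ Fin n)) ℚ,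
    (∀ u ∈ J, F u ∈ Eq1 c Q (α u) (fun i => ε i u)) ∧ f = ∏ u ∈ J, F u}, ?_⟩
  intro R _ _ g
  constructor
  · rintro ⟨s, hs⟩ f ⟨F, hF, rfl⟩
    obtain ⟨u, huJ, hu1, hu2⟩ := hJ s
    rw [map_prod]
    refine Finset.prod_eq_zero huJ ?_
    refine (pc_iff c Q (α u) (fun i => ε i u) g).1 ?_ _ (hF u huJ)
    rw [hu1]
    simp only [hu2]
    exact hs
  · intro h
    by_contra hno
    push Not at hno
    have h1 : ∀ u : Γ, ∃ f ∈ Eq1 c Q (α u) (fun i => ε i u), vl g f ≠ 0 := by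
      intro u
      have h2 := hno u
      rw [pc_iff] at h2
      push Not at h2
      exact h2
    choose F hF1 hF2 using h1
    have h2 := h _ ⟨F, fun u _ => hF1 u, rfl⟩
    rw [map_prod] at h2
    exact Finset.prod_ne_zero_iff.2 (fun u _ => hF2 u) h2

end

end Pool.Agent.V7H82.SA
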