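import Mathlib
import Pool.Agent.V7H82.SA.Eqn
import Pool.Agent.V7H82.OD.Main

/-!
# The Zariski closure of the image of Galois
-/

set_option autoImplicit false
set_option linter.unusedSectionVars false

namespace Pool.Agent.V7H82.SA

open MvPolynomial Matrix Pool.Agent.W528.ZC Pool.Agent.Y95.MT Pool.Agent.R932
open Pool.Agent.W544.PG (HS BD bl)

noncomputable section

variable {ℓ : ℕ} [Fact ℓ.Prime] {n r : ℕ} {κ : Type} [Fintype κ] [DecidableEq κ] {Γ : Type}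
  [Group Γ] {c : Fin n → Fin r} {T : HS n} {p q : Fin r → ℕ}
  {β : Γ →* Matrix (Fin n) (Fin n) ℤ_[ℓ]}

lemma bk_det {R : Type} [CommRing R] (A : Matrix (Fin n) (Fin n) R) (i : Fin r) :
    (bk c i A).det = (bl c i A).det := by
  rw [OD.det_bl]
  have h1 : OD.blk c i A = (bk c i A).submatrix (OD.eb c i).symm (OD.eb c i).symm := rfl
  rw [h1, Matrix.det_submatrix_equiv_self]

lemma bk_mul_det {R : Type} [CommRing R] {A B : Matrix (Fin n) (Fin n) R} (hA : BD c A)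
    (_hB : BD c B) (i : Fin r) : (bk c i (A * B)).det = (bk c i A).det * (bk c i B).det := by
  rw [bk_det, bk_det, bk_det, OD.det_bl, OD.det_bl, OD.det_bl, OD.blk_mul c hA, Matrix.det_mul]

/-- A rational representation over an extension. -/
def ext (F : Type) [Field F] [Algebra ℚ F] (α : Γ →* Matrix κ κ ℚ) : Γ →* Matrix κ κ F :=
  (algebraMap ℚ F).mapMatrix.toMonoidHom.comp α

lemma ext_apply (F : Type) [Field F] [Algebra ℚ F] (α : Γ →* Matrix κ κ ℚ) (s : Γ) :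
    ext F α s = (α s).map (algebraMap ℚ F) := rfl

/-- **The Zariski closure.** -/
theorem closure_iff (hB : T.Big c p q) (hg : GalT c T.Q β) (α : Γ →* Matrix κ κ ℚ)
    (hα : (Set.range α).Finite) (ε : Fin r → Γ →* ℤˣ)
    (hdet : ∀ i s, (bk c i (qm (β s))).det = ((ε i s : ℤ) : ℚ_[ℓ]))
    (hmtc : MTC (hM (fun _ => (1 : Matrix κ κ ℂ)) T) (tot (ext ℚ_[ℓ] α) β))
    (g : Matrix (κ ⊕ Fin n) (κ ⊕ Fin n) (AlgebraicClosure ℚ_[ℓ])) :
    (∀ f : MvPolynomial ((κ ⊕ Fin n) × (κ ⊕ Fin n)) (AlgebraicClosure ℚ_[ℓ]),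
      (∀ s : Γ, ev ((tot (ext ℚ_[ℓ] α) β s).map
        (algebraMap ℚ_[ℓ] (AlgebraicClosure ℚ_[ℓ]))) f = 0) → ev g f = 0) ↔
      ∃ s : Γ, Pc c T.Q (α s) (fun i => ε i s) g := by
  obtain ⟨e⟩ := exists_emb ℓ
  set j := algebraMap ℚ_[ℓ] (AlgebraicClosure ℚ_[ℓ]) with hj
  have hjQ : ∀ x : ℚ, j (algebraMap ℚ ℚ_[ℓ] x) = algebraMap ℚ (AlgebraicClosure ℚ_[ℓ]) x :=
    fun x => (IsScalarTower.algebraMap_apply ℚ ℚ_[ℓ] (AlgebraicClosure ℚ_[ℓ]) x).symm
  have htot : ∀ s, (tot (ext ℚ_[ℓ] α) β s).map j =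
      fromBlocks ((α s).map (algebraMap ℚ (AlgebraicClosure ℚ_[ℓ]))) 0 0 ((qm (β s)).map j) := by
    intro s
    have h1 : (tot (ext ℚ_[ℓ] α) β s).map j =
        fromBlocks ((ext ℚ_[ℓ] α s).map j) 0 0 ((qm (β s)).map j) := fb_map _ _ _
    rw [h1, ext_apply, Matrix.map_map]
    congr 1
  have hmem : ∀ s, Pc c T.Q (α s) (fun i => ε i s) ((tot (ext ℚ_[ℓ] α) β s).map j) := by
    intro s
    refine ⟨(qm (β s)).map j, htot s, hg.formK j s, hg.bdK j s, fun i => ?_⟩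
    have h1 : bk c i ((qm (β s)).map j) = (bk c i (qm (β s))).map j := rfl
    rw [h1, ← RingHom.mapMatrix_apply, ← RingHom.map_det, hdet, map_intCast]
  constructor
  · intro h
    obtain ⟨P, hP⟩ := exists_eqn c T.Q α hα ε
    refine (hP _ g).2 fun f hf => ?_
    have h1 : ev g (toK (AlgebraicClosure ℚ_[ℓ]) f) = vl g f := ev_toK g f
    rw [← h1]
    refine h _ fun s => ?_
    have h2 : ev ((tot (ext ℚ_[ℓ] α) β s).map j) (toK (AlgebraicClosure ℚ_[ℓ]) f) =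
        vl ((tot (ext ℚ_[ℓ] α) β s).map j) f := ev_toK _ f
    rw [h2]
    exact (hP _ _).1 ⟨s, hmem s⟩ f hf
  · rintro ⟨s, t, rfl, h1, h2, h3⟩ f hf
    have hbs := hg.bdK j s⁻¹
    have hmul : (qm (β s⁻¹)).map j * (qm (β s)).map j = 1 := by
      rw [← Matrix.map_mul, ← qm_mul, ← map_mul, inv_mul_cancel, map_one, qm_one,
        Matrix.map_one _ (map_zero _) (map_one _)]
    set t₀ := t * (qm (β s⁻¹)).map j with ht₀
    have hbt : BD c t := h2
    have hSO : InSO c T.Q t₀ := by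
      refine ⟨?_, OD.BD_mul c hbt hbs, fun i => ?_⟩
      · have h4 := hg.formK j s⁻¹
        rw [ht₀, Matrix.transpose_mul]
        calc ((qm (β s⁻¹)).map j)ᵀ * tᵀ * T.Q.map (algebraMap ℚ (AlgebraicClosure ℚ_[ℓ])) *
              (t * (qm (β s⁻¹)).map j) = ((qm (β s⁻¹)).map j)ᵀ *
              (tᵀ * T.Q.map (algebraMap ℚ (AlgebraicClosure ℚ_[ℓ])) * t) *
              (qm (β s⁻¹)).map j := by simp only [Matrix.mul_assoc]
          _ = _ := by rw [h1, h4]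
      · rw [← bk_det, ht₀, bk_mul_det hbt hbs, h3]
        have h4 : bk c i ((qm (β s⁻¹)).map j) = (bk c i (qm (β s⁻¹))).map j := rfl
        rw [h4, ← RingHom.mapMatrix_apply, ← RingHom.map_det, hdet, map_intCast, map_inv]
        rw [← Int.cast_mul, ← Units.val_mul, mul_inv_cancel, Units.val_one, Int.cast_one]
    have hQd : T.Q.det ≠ 0 := Pool.Agent.W74.PG.det_ne T
    have hd : (fromBlocks (1 : Matrix κ κ (AlgebraicClosure ℚ_[ℓ])) 0 0 t₀).det ≠ 0 := by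
      rw [fb_det, Matrix.det_one, one_mul]
      exact InSO_det hQd hSO
    have hG0 : InG0 (tot (ext ℚ_[ℓ] α) β) (fromBlocks 1 0 0 t₀) := by
      refine (hmtc _ hd).2 ?_
      rw [InMT_iff (c := c) hB (fun _ _ => by rw [Matrix.det_one]; exact one_ne_zero) star_N e hd,
        Matrix.toBlocks_fromBlocks₁₁, Matrix.toBlocks_fromBlocks₂₂]
      exact ⟨rfl, InMT_one e _, hSO⟩
    rw [InG0_iff, ← hj] at hG0
    have h5 := hG0 (sub 1 ((tot (ext ℚ_[ℓ] α) β s).map j) f) ⟨⊤, inferInstance, fun u _ => by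
      rw [ev_sub, one_mul, ← Matrix.map_mul, ← map_mul]
      exact hf (u * s)⟩
    rw [ev_sub, one_mul, htot, fb_mul, one_mul, ht₀, Matrix.mul_assoc, hmul, mul_one] at h5
    exact h5

end

end Pool.Agent.V7H82.SA
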